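import Mathlib

set_option autoImplicit false

namespace Pool.Agent.H.MP_cfac02_lc

open Set Cardinal

universe u

def Dn {P : Type u} [Preorder P] (B : Set P) (a : P) : Prop := ∃ b ∈ B, a ≤ b

def Dir {P : Type u} [Preorder P] (c : Cardinal.{u}) (I : Set P) : Prop :=
  ∀ A ⊆ I, #A ≤ c → ∃ u ∈ I, ∀ a ∈ A, a ≤ u

variable {P : Type u} [Preorder P] {c : Cardinal.{u}}

lemma Dn.mono {B : Set P} {a b : P} (h : Dn B b) (hab : a ≤ b) : Dn B a := by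
  obtain ⟨x, h1, h2⟩ := h
  exact ⟨x, h1, hab.trans h2⟩

lemma Dir.range {I : Set P} (h : Dir c I) {J : Type u} (hJ : #J ≤ c) (f : J → P)
    (hf : ∀ j, f j ∈ I) : ∃ u ∈ I, ∀ j, f j ≤ u := by
  obtain ⟨u, h1, h2⟩ := h (Set.range f) (range_subset_iff.mpr hf) (mk_range_le.trans hJ)
  exact ⟨u, h1, fun j => h2 _ (mem_range_self j)⟩

lemma Dir.ne {I : Set P} (h : Dir c I) : I.Nonempty := by
  obtain ⟨u, h1, -⟩ := h ∅ (empty_subset _) (by simp)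
  exact ⟨u, h1⟩

lemma Dir.pair {I : Set P} (h : Dir c I) (hc : ℵ₀ ≤ c) {a b : P} (ha : a ∈ I) (hb : b ∈ I) :
    ∃ u ∈ I, a ≤ u ∧ b ≤ u := by
  obtain ⟨u, h1, h2⟩ := h {a, b} (by rintro _ (rfl | rfl) <;> assumption)
    (((toFinite _).lt_aleph0.le).trans hc)
  exact ⟨u, h1, h2 a (by simp), h2 b (by simp)⟩

lemma Dir.one {I : Set P} (h : Dir c I) {J : Type u} (hJ : #J ≤ c) (φ : J → P → Prop)
    (hφ : ∀ j x y, x ≤ y → φ j y → φ j x) (h1 : ∀ x ∈ I, ∃ j, φ j x) : ∃ j, ∀ x ∈ I, φ j x := by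
  by_contra hc
  push Not at hc
  choose x h2 h3 using hc
  obtain ⟨u, h4, h5⟩ := h.range hJ x h2
  obtain ⟨j, h6⟩ := h1 u h4
  exact h3 j (hφ j _ _ (h5 j) h6)

lemma Dir.pi {T : Type u} (k : T → Set P) (h : ∀ t, Dir c (k t)) :
    Dir c {p : T → P | ∀ t, p t ∈ k t} := by
  intro A hA hc
  choose v h1 h2 using fun t => (h t).range hc (fun a : A => a.1 t) fun a => hA a.2 t
  exact ⟨v, h1, fun a ha t => h2 t ⟨a, ha⟩⟩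

lemma Dir.single (x : P) : Dir c {x} :=
  fun _ hA _ => ⟨x, rfl, fun _ ha => (hA ha).le⟩

lemma exists_enum {α : Type u} [Nonempty α] {X : Set α} (h : #X ≤ c) :
    ∃ e : c.out → α, X ⊆ Set.range e := by
  obtain ⟨g⟩ : Nonempty (X ↪ c.out) := by rwa [← Cardinal.le_def, mk_out]
  refine ⟨Function.extend g Subtype.val fun _ => Classical.arbitrary α, fun x hx => ⟨g ⟨x, hx⟩, ?_⟩⟩
  rw [g.injective.extend_apply]

lemma closed_small {α : Type u} (ch : Set α → Set α) (hc : ℵ₀ ≤ c) (h : ∀ X, #(ch X) ≤ c)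
    {ρ : Cardinal.{u}} (hρ : ℵ₀ ≤ ρ) :
    ∃ N : Set α, #N ≤ c ^ ρ ∧ ∀ X ⊆ N, #X ≤ ρ → ch X ⊆ N := by
  rcases isEmpty_or_nonempty α with hα | hα
  · exact ⟨univ, by simp, fun _ _ _ => subset_univ _⟩
  choose e he using fun X => exists_enum (h X)
  obtain ⟨ev, hev⟩ : ∃ ev : WType (fun a : c.out × Set ρ.out => a.2) → α,
      ∀ a f, ev ⟨a, f⟩ = e (Set.range fun b => ev (f b)) a.1 :=
    ⟨WType.elim α fun x => e (Set.range x.2) x.1.1, fun _ _ => rfl⟩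
  have hk : ℵ₀ ≤ c ^ ρ := hc.trans (self_le_power c (one_le_aleph0.trans hρ))
  refine ⟨Set.range ev, mk_range_le.trans (WType.cardinalMk_le_of_le ?_), ?_⟩
  · refine (sum_le_sum _ (fun _ => c ^ ρ) fun a => ?_).trans ?_
    · rw [← power_mul]
      refine power_le_power_left (aleph0_pos.trans_le hc).ne' (mul_le_of_le hρ le_rfl ?_)
      exact (mk_set_le _).trans (mk_out ρ).le
    · rw [sum_const', mk_prod, lift_id, lift_id, mk_out, mk_set, mk_out]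
      refine mul_le_of_le hk (mul_le_of_le hk (self_le_power c (one_le_aleph0.trans hρ)) ?_) le_rfl
      exact power_le_power_right (natCast_lt_aleph0.le.trans hc)
  · intro X hX hXρ a ha
    obtain ⟨B, hB⟩ := le_mk_iff_exists_set.mp (hXρ.trans (mk_out ρ).ge)
    obtain ⟨g⟩ := Cardinal.eq.mp hB
    choose t ht using fun x : X => hX x.2
    obtain ⟨i, hi⟩ := he X ha
    refine ⟨⟨(i, B), fun b => t (g b)⟩, ?_⟩
    rw [hev, ← hi]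
    congr 1
    ext x
    simp only [ht, mem_range]
    exact ⟨fun ⟨b, hb⟩ => hb ▸ (g b).2, fun hx => ⟨g.symm ⟨x, hx⟩, by simp⟩⟩

lemma closure {α : Type u} (ch : Set α → Set α) (hc : ℵ₀ ≤ c) (h : ∀ X, #(ch X) ≤ c) :
    ∃ M : Cardinal.{u} → Set α, Monotone M ∧ (∀ ρ, ℵ₀ ≤ ρ → #(M ρ) ≤ c ^ ρ) ∧
      ∀ ρ X, X ⊆ M ρ → #X ≤ ρ → ch X ⊆ M ρ := by
  refine ⟨fun ρ => ⋂₀ {N | ∀ X ⊆ N, #X ≤ ρ → ch X ⊆ N}, ?_, ?_, ?_⟩
  · intro ρ σ hρ x hx N hN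
    exact hx N fun X h1 h2 => hN X h1 (h2.trans hρ)
  · intro ρ hρ
    obtain ⟨N, h1, h2⟩ := closed_small ch hc h hρ
    have h3 : ⋂₀ {N | ∀ X ⊆ N, #X ≤ ρ → ch X ⊆ N} ⊆ N := sInter_subset_of_mem h2
    exact (mk_le_mk_of_subset h3).trans h1
  · intro ρ X h1 h2 x hx N hN
    exact hN X (fun y hy => h1 hy N hN) h2 hx

def inc (Q X : Set P) : Set P := {p | p ∈ Q ∧ ∀ x ∈ X, ¬ p ≤ x ∧ ¬ x ≤ p}

lemma cover (Q : Set P) (hc : ℵ₀ ≤ c) : ∃ L : Cardinal.{u} → Set (Set P), Monotone L ∧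
    (∀ ρ, ℵ₀ ≤ ρ → #(L ρ) ≤ c ^ ρ) ∧ (∀ ρ, ∀ I ∈ L ρ, I ⊆ Q ∧ Dir c I) ∧
    ∀ C ⊆ Q, Dir c C → ∃ X ⊆ Q, IsAntichain (· ≤ ·) X ∧
      (((∀ a ∈ C, Dn X a) ∧ ∀ x ∈ X, {x} ∈ L (max #X ℵ₀)) ∨
        ∃ I ∈ L (max #X ℵ₀), ∀ a ∈ C, Dn I a) := by
  have h0 : ∀ X : Set P, ∃ A : Set P, #A ≤ c ∧ (¬ Dir c (inc Q X) → A ⊆ inc Q X ∧
      ∀ v ∈ inc Q X, ∃ a ∈ A, ¬ a ≤ v) := by
    intro X
    by_cases h : Dir c (inc Q X)
    · exact ⟨∅, by simp, fun h' => absurd h h'⟩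
    · unfold Dir at h
      push Not at h
      obtain ⟨A, h1, h2, h3⟩ := h
      exact ⟨A, h2, fun _ => ⟨h1, h3⟩⟩
  choose ch h1 h2 using h0
  obtain ⟨M, hM1, hM2, hM3⟩ := closure ch hc h1
  refine ⟨fun ρ => {I | (∃ X, (X ⊆ M ρ ∧ #X ≤ ρ) ∧ I = inc Q X ∧ Dir c I) ∨
    ∃ x ∈ M ρ, x ∈ Q ∧ I = {x}}, ?_, ?_, ?_, ?_⟩
  · rintro ρ σ h I (⟨X, ⟨k1, k2⟩, k3⟩ | ⟨x, k1, k2⟩)
    · exact Or.inl ⟨X, ⟨k1.trans (hM1 h), k2.trans h⟩, k3⟩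
    · exact Or.inr ⟨x, hM1 h k1, k2⟩
  · intro ρ hρ
    have hk : ℵ₀ ≤ c ^ ρ := hc.trans (self_le_power c (one_le_aleph0.trans hρ))
    refine (mk_le_mk_of_subset (t := (Set.range fun X : {X : Set P // X ⊆ M ρ ∧ #X ≤ ρ} =>
      inc Q X.1) ∪ Set.range fun x : M ρ => ({x.1} : Set P)) ?_).trans ((mk_union_le _ _).trans
        (add_le_of_le hk (mk_range_le.trans ?_) (mk_range_le.trans (hM2 ρ hρ))))
    · rintro I (⟨X, k1, k2, -⟩ | ⟨x, k1, -, k2⟩)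
      · exact Or.inl ⟨⟨X, k1⟩, k2.symm⟩
      · exact Or.inr ⟨⟨x, k1⟩, k2.symm⟩
    · refine (mk_bounded_subset_le _ _).trans
        ((power_le_power_right (max_le (hM2 ρ hρ) hk)).trans ?_)
      rw [← power_mul, mul_eq_self hρ]
  · rintro ρ I (⟨X, -, rfl, k⟩ | ⟨x, -, k, rfl⟩)
    · exact ⟨fun _ h => h.1, k⟩
    · exact ⟨singleton_subset_iff.mpr k, Dir.single x⟩
  intro C hCQ hC
  obtain ⟨X, ⟨k1, k2, k3, k4⟩, hmax⟩ := zorn_subset {X : Set P | X ⊆ Q ∧ IsAntichain (· ≤ ·) X ∧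
      (∀ x ∈ X, ∀ a ∈ C, ¬ x ≤ a) ∧ ∀ ρ, ℵ₀ ≤ ρ → X ⊆ M ρ ∨ ρ < #(X ∩ M ρ : Set P)} (by
    intro 𝒞 h3 h4
    refine ⟨⋃₀ 𝒞, ⟨sUnion_subset fun X hX => (h3 hX).1, ?_, ?_, fun ρ hρ => ?_⟩,
      fun s hs => subset_sUnion_of_mem hs⟩
    · rintro x ⟨X, hX, hx⟩ y ⟨Y, hY, hy⟩ hxy
      rcases h4.total hX hY with h5 | h5
      · exact (h3 hY).2.1 (h5 hx) hy hxy
      · exact (h3 hX).2.1 hx (h5 hy) hxy
    · rintro x ⟨X, hX, hx⟩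
      exact (h3 hX).2.2.1 x hx
    · by_cases h5 : ∀ X ∈ 𝒞, X ⊆ M ρ
      · exact Or.inl (sUnion_subset h5)
      · push Not at h5
        obtain ⟨X, hX, h5⟩ := h5
        exact Or.inr ((((h3 hX).2.2.2 ρ hρ).resolve_left h5).trans_le
          (mk_le_mk_of_subset (inter_subset_inter_left _ (subset_sUnion_of_mem hX)))))
  have k5 : X ⊆ M (max #X ℵ₀) := (k4 _ (le_max_right _ _)).resolve_right
    (not_lt.mpr ((mk_le_mk_of_subset inter_subset_left).trans (le_max_left _ _)))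
  refine ⟨X, k1, k2, ?_⟩
  by_cases h3 : ∀ a ∈ C, Dn X a
  · exact Or.inl ⟨h3, fun x hx => Or.inr ⟨x, k5 hx, k1 hx, rfl⟩⟩
  push Not at h3
  obtain ⟨a0, h3, h4⟩ := h3
  have h5 : ∀ v ∈ C, a0 ≤ v → v ∈ inc Q X := fun v hv h5 =>
    ⟨hCQ hv, fun x hx => ⟨fun h6 => h4 ⟨x, hx, h5.trans h6⟩, k3 x hx v hv⟩⟩
  have h6 : Dir c (inc Q X) := by
    by_contra h6
    obtain ⟨h7, h8⟩ := h2 X h6
    have h9 : ∃ a ∈ ch X, ∀ v ∈ C, ¬ a ≤ v := by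
      by_contra h9
      push Not at h9
      choose v m1 m2 using fun a : ch X => h9 a a.2
      obtain ⟨w, m3, m4⟩ := hC.range (h1 X) v m1
      obtain ⟨z, m5, m6, m7⟩ := hC.pair hc m3 h3
      obtain ⟨a, m8, m9⟩ := h8 z (h5 z m5 m7)
      exact m9 ((m2 ⟨a, m8⟩).trans ((m4 _).trans m6))
    obtain ⟨a, m1, m2⟩ := h9
    have m3 := h7 m1
    have m4 : insert a X ⊆ X := hmax ⟨insert_subset m3.1 k1,
      k2.insert (fun b hb _ => (m3.2 b hb).2) (fun b hb _ => (m3.2 b hb).1), by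
        rintro x (rfl | hx)
        · exact m2
        · exact k3 x hx, fun ρ hρ => by
        by_cases m4 : ρ < #(X ∩ M ρ : Set P)
        · exact Or.inr (m4.trans_le
            (mk_le_mk_of_subset (inter_subset_inter_left _ (subset_insert _ _))))
        · have m5 := (k4 ρ hρ).resolve_right m4
          rw [inter_eq_left.mpr m5] at m4
          exact Or.inl (insert_subset (hM3 ρ X m5 (not_lt.mp m4) m1) m5)⟩ (subset_insert _ _)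
    exact (m3.2 a (m4 (mem_insert _ _))).1 le_rfl
  refine Or.inr ⟨inc Q X, Or.inl ⟨X, ⟨k5, le_max_left _ _⟩, rfl, h6⟩, fun a ha => ?_⟩
  obtain ⟨z, m1, m2, m3⟩ := hC.pair hc ha h3
  exact ⟨z, h5 z m1 m3, m2⟩

lemma cover1 (Q : Set P) (hc : ℵ₀ ≤ c) : ∃ L : Cardinal.{u} → Set (Set P), Monotone L ∧
    (∀ ρ, ℵ₀ ≤ ρ → #(L ρ) ≤ c ^ ρ) ∧ (∀ ρ, ∀ I ∈ L ρ, I ⊆ Q ∧ Dir c I) ∧
    ∀ p ∈ Q, ∃ X ⊆ Q, IsAntichain (· ≤ ·) X ∧ ∃ I ∈ L (max #X ℵ₀), Dn I p := by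
  obtain ⟨L, h1, h2, h3, h4⟩ := cover Q hc
  refine ⟨L, h1, h2, h3, fun p hp => ?_⟩
  obtain ⟨X, k1, k2, k3 | ⟨I, k3, k4⟩⟩ := h4 {p} (singleton_subset_iff.mpr hp) (Dir.single p)
  · obtain ⟨x, k4, k5⟩ := k3.1 p rfl
    exact ⟨X, k1, k2, {x}, k3.2 x k4, x, rfl, k5⟩
  · exact ⟨X, k1, k2, I, k3, k4 p rfl⟩

end Pool.Agent.H.MP_cfac02_lc
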