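import Pool.Agent.H.MP_cfac02_lc.A

set_option autoImplicit false

namespace Pool.Agent.H.MP_cfac02_lc

open Set Cardinal

universe u

variable {P : Type u} [Preorder P]

def Big (l : Cardinal.{u}) (T : Set P) : Prop :=
  ∀ D : Set P, #D ≤ l → ∃ X ⊆ T, IsAntichain (· ≤ ·) X ∧ (∀ x ∈ X, ¬ Dn D x) ∧ l < #X

lemma Big.part {l : Cardinal.{u}} (hl : ℵ₀ ≤ l) {T : Set P} (h : Big l T) {J : Type u}
    (hJ : #J ≤ l) (f : P → J) : ∃ j, Big l {x | x ∈ T ∧ f x = j} := by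
  by_contra hc
  unfold Big at hc
  push Not at hc
  choose D h1 h2 using hc
  obtain ⟨X, k1, k2, k3, k4⟩ := h (⋃ j, D j)
    ((mk_iUnion_le _).trans (mul_le_of_le hl hJ (ciSup_le' h1)))
  refine k4.not_ge ((mk_le_mk_of_subset (t := ⋃ j, {x | x ∈ X ∧ f x = j}) fun x hx =>
    mem_iUnion.mpr ⟨f x, hx, rfl⟩).trans ((mk_iUnion_le _).trans (mul_le_of_le hl hJ
      (ciSup_le' fun j => h2 j _ (fun x hx => ⟨k1 hx.1, hx.2⟩) (k2.subset fun x hx => hx.1) ?_))))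
  rintro x hx ⟨d, h3, h4⟩
  exact k3 x hx.1 ⟨d, mem_iUnion.mpr ⟨j, h3⟩, h4⟩

structure Sg (μ : Cardinal.{u}) (ι : Type u) [LinearOrder ι] (m : ι → Cardinal.{u}) : Prop where
  inf : ℵ₀ < μ
  sl : ∀ c < μ, 2 ^ c < μ
  card : #ι < μ
  seg : ∀ ξ : ι, #(Iio ξ) < μ.ord.cof
  lt : ∀ ξ, m ξ < μ
  cof : ∀ c < μ, ∃ ξ, c ≤ m ξ

variable {μ : Cardinal.{u}} {ι : Type u} [LinearOrder ι] {m : ι → Cardinal.{u}}

lemma Sg.pow (H : Sg μ ι m) {a b : Cardinal.{u}} (ha : a < μ) (hb : b < μ) : a ^ b < μ := by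
  refine (power_le_power_right (cantor a).le).trans_lt ?_
  rw [← power_mul]
  exact H.sl _ (mul_lt_of_lt H.inf.le ha hb)

lemma claimA [WellFoundedLT ι] (H : Sg μ ι m)
    (hP : ∀ X : Set P, IsAntichain (· ≤ ·) X → #X < μ) :
    ∃ l, ℵ₀ ≤ l ∧ #ι ≤ l ∧ l < μ ∧ ∀ S : Set P, #S < μ → ¬ Big l S := by
  by_contra hc
  push Not at hc
  have h0 : ∀ l, ∃ S : Set P, #S < μ ∧ (ℵ₀ ≤ l → #ι ≤ l → l < μ → Big l S) := by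
    intro l
    by_cases h : ℵ₀ ≤ l ∧ #ι ≤ l ∧ l < μ
    · obtain ⟨S, h1, h2⟩ := hc l h.1 h.2.1 h.2.2
      exact ⟨S, h1, fun _ _ _ => h2⟩
    · exact ⟨∅, by simpa using aleph0_pos.trans H.inf, fun h1 h2 h3 => absurd ⟨h1, h2, h3⟩ h⟩
  choose S hS1 hS2 using h0
  obtain ⟨l, hl⟩ : ∃ l : ι → Cardinal.{u}, ∀ ξ, l ξ =
      max (max (m ξ) (max ℵ₀ #ι)) (2 ^ #(⋃ ζ : Iio ξ, S (l ζ) : Set P)) :=
    ⟨WellFounded.fix wellFounded_lt fun ξ rec =>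
      max (max (m ξ) (max ℵ₀ #ι)) (2 ^ #(⋃ ζ : Iio ξ, S (rec ζ.1 ζ.2) : Set P)),
      fun ξ => by rw [WellFounded.fix_eq]⟩
  obtain ⟨E, hE⟩ : ∃ E : ι → Set P, ∀ ξ, E ξ = ⋃ ζ : Iio ξ, S (l ζ) := ⟨_, fun _ => rfl⟩
  simp only [← hE] at hl
  have h1 : ∀ ξ, l ξ < μ := by
    intro ξ
    rw [hl]
    refine max_lt (max_lt (H.lt ξ) (max_lt H.inf H.card)) (H.sl _ ?_)
    rw [hE]
    exact (mk_iUnion_le _).trans_lt (mul_lt_of_lt H.inf.le ((mk_set_le _).trans_lt H.card)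
      (iSup_lt_of_lt_cof_ord (H.seg ξ) fun _ => hS1 _))
  have h2 : ∀ ξ, m ξ ≤ l ξ ∧ ℵ₀ ≤ l ξ ∧ #ι ≤ l ξ ∧ 2 ^ #(E ξ) ≤ l ξ := by
    intro ξ
    rw [hl]
    simp
  choose j hj using fun ξ => (hS2 _ (h2 ξ).2.1 (h2 ξ).2.2.1 (h1 ξ)).part (h2 ξ).2.1
    (J := Set (E ξ)) (by rw [mk_set]; exact (h2 ξ).2.2.2) (fun y => {e | e.1 ≤ y})
  have h3 : ∀ ξ, ∃ y : P, {e : E ξ | e.1 ≤ y} = j ξ := by
    intro ξ
    obtain ⟨X, k1, -, -, k2⟩ := hj ξ ∅ (by simp)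
    obtain ⟨y, hy⟩ : X.Nonempty := by
      rw [← nonempty_coe_sort, ← mk_ne_zero_iff]
      exact (pos_of_gt k2).ne'
    exact ⟨y, (k1 hy).2⟩
  choose y hy using h3
  choose X k1 k2 k3 k4 using fun ξ => hj ξ (E ξ ∪ range y) ((mk_union_le _ _).trans
    (add_le_of_le (h2 ξ).2.1 ((cantor _).le.trans (h2 ξ).2.2.2) (mk_range_le.trans (h2 ξ).2.2.1)))
  have h4 : ∀ ξ η, ξ < η → X ξ ⊆ E η := fun ξ η h x hx => by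
    rw [hE]
    exact mem_iUnion.mpr ⟨⟨ξ, h⟩, (k1 ξ hx).1⟩
  have h5 : IsAntichain (· ≤ ·) (⋃ ξ, X ξ) := by
    intro x hx x' hx' hne hle
    obtain ⟨ξ, hx⟩ := mem_iUnion.mp hx
    obtain ⟨η, hx'⟩ := mem_iUnion.mp hx'
    rcases lt_trichotomy ξ η with h | rfl | h
    · have h6 : (⟨x, h4 ξ η h hx⟩ : E η) ∈ {e : E η | e.1 ≤ y η} := by
        rw [hy, ← (k1 η hx').2]
        exact hle
      exact k3 ξ x hx ⟨y η, Or.inr (mem_range_self η), h6⟩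
    · exact k2 ξ hx hx' hne hle
    · exact k3 ξ x hx ⟨x', Or.inl (h4 η ξ h hx'), hle⟩
  obtain ⟨ξ, h6⟩ := H.cof _ (hP _ h5)
  exact (k4 ξ).not_ge ((mk_le_mk_of_subset (subset_iUnion X ξ)).trans (h6.trans (h2 ξ).1))

lemma split (H : Sg μ ι m) (hP : ∀ X : Set P, IsAntichain (· ≤ ·) X → #X < μ)
    {c c' : Cardinal.{u}} (hι : #ι ≤ c) (hc' : ℵ₀ ≤ c') (hc'' : c' < μ) {I : Set P}
    (hI : Dir c I) : ∃ K : Set (Set P), #K < μ ∧ (∀ k ∈ K, k ⊆ I ∧ Dir c' k) ∧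
      ∀ x ∈ I, ∃ k ∈ K, Dn k x := by
  obtain ⟨L, h1, h2, h3, h4⟩ := cover1 I hc'
  obtain ⟨ξ, h5⟩ := hI.one hι (fun ξ x => ∃ k ∈ L (max (m ξ) ℵ₀), Dn k x)
    (fun _ _ _ h ⟨k, k1, k2⟩ => ⟨k, k1, k2.mono h⟩) fun x hx => by
      obtain ⟨X, -, k1, k, k2, k3⟩ := h4 x hx
      obtain ⟨ξ, k4⟩ := H.cof _ (hP X k1)
      exact ⟨ξ, k, h1 (max_le_max_right _ k4) k2, k3⟩
  exact ⟨_, (h2 _ (le_max_right _ _)).trans_lt (H.pow hc'' (max_lt (H.lt ξ) H.inf)), h3 _, h5⟩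

def Good (𝓘 A : Set (Set P)) : Prop :=
  ∀ q : A → P, (∀ I, q I ∈ I.1) → ∃ J ∈ 𝓘, ∀ I, Dn J (q I)

lemma part (H : Sg μ ι m) {c c' b : Cardinal.{u}} {𝓘 W : Set (Set P)} (h𝓘 : 𝓘.Nonempty)
    (hS : ∀ S : Set P, #S < μ → ∃ 𝓙 ⊆ 𝓘, #𝓙 ≤ c ∧ ∀ s ∈ S, ∃ J ∈ 𝓙, Dn J s)
    (hW : #W < μ) (hW' : ∀ I ∈ W, Dir c I) (hc : c ^ #W ≤ c') (hb : b < μ)
    (K : Set P → Set (Set P)) (hK1 : ∀ I ∈ W, #(K I) ≤ b) (hK2 : ∀ I ∈ W, ∀ k ∈ K I, Dir c' k)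
    (hK3 : ∀ I ∈ W, ∀ x ∈ I, ∃ k ∈ K I, Dn k x) :
    ∃ π : W → c.out, ∀ i, Good 𝓘 {I | ∃ h : I ∈ W, π ⟨I, h⟩ = i} := by
  have hT : #(Σ I : W, K I) < μ := by
    rw [mk_sigma]
    refine (sum_le_sum _ (fun _ => b) fun I : W => hK1 I I.2).trans_lt ?_
    rw [sum_const']
    exact mul_lt_of_lt H.inf.le hW hb
  have hΓ := Dir.pi (c := c') (fun t : Σ I : W, K I => t.2.1) fun t => hK2 _ t.1.2 _ t.2.2
  obtain ⟨π, hπ⟩ := hΓ.one (J := W → c.out) (by rw [← power_def, mk_out]; exact hc)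
    (fun π p => ∃ j : c.out → Set P, (∀ i, j i ∈ 𝓘) ∧ ∀ I : W, ∀ x ∈ I.1, ∃ k : K I,
      Dn k.1 x ∧ Dn (j (π I)) (p ⟨I, k⟩))
    (by
      rintro π p p' h ⟨j, h1, h2⟩
      refine ⟨j, h1, fun I x hx => ?_⟩
      obtain ⟨k, h3, h4⟩ := h2 I x hx
      exact ⟨k, h3, h4.mono (h _)⟩)
    (by
      intro p _
      obtain ⟨𝓙, h1, h2, h3⟩ := hS (range p) (mk_range_le.trans_lt hT)
      haveI : Nonempty 𝓘 := h𝓘.to_subtype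
      obtain ⟨e, he⟩ := exists_enum (c := c) (X := {J : 𝓘 | J.1 ∈ 𝓙}) (by
        refine le_trans ?_ h2
        exact mk_le_of_injective (f := fun J => ⟨J.1.1, J.2⟩) fun a b h =>
          Subtype.ext (Subtype.ext (congrArg (fun z : 𝓙 => z.1) h)))
      choose π hπ using fun I : W => (hW' I I.2).one (mk_out c).le
        (fun i x => ∃ k : K I, Dn k.1 x ∧ Dn (e i).1 (p ⟨I, k⟩))
        (fun _ _ _ h ⟨k, k1, k2⟩ => ⟨k, k1.mono h, k2⟩) fun x hx => by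
          obtain ⟨k, k1, k2⟩ := hK3 I I.2 x hx
          obtain ⟨J, k3, k4⟩ := h3 _ (mem_range_self ⟨I, ⟨k, k1⟩⟩)
          obtain ⟨i, hi⟩ := he (show (⟨J, h1 k3⟩ : 𝓘) ∈ {J : 𝓘 | J.1 ∈ 𝓙} from k3)
          exact ⟨i, ⟨k, k1⟩, k2, by rw [hi]; exact k4⟩
      exact ⟨π, fun i => (e i).1, fun i => (e i).2, hπ⟩)
  refine ⟨π, fun i q hq => ?_⟩
  have h1 : ∀ t : Σ I : W, K I, ∃ z ∈ t.2.1, ∀ h : π t.1 = i,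
      Dn t.2.1 (q ⟨t.1.1, t.1.2, h⟩) → q ⟨t.1.1, t.1.2, h⟩ ≤ z := by
    intro t
    by_cases h : ∃ h : π t.1 = i, Dn t.2.1 (q ⟨t.1.1, t.1.2, h⟩)
    · obtain ⟨h, z, h1, h2⟩ := h
      exact ⟨z, h1, fun _ _ => h2⟩
    · obtain ⟨z, hz⟩ := (hK2 _ t.1.2 _ t.2.2).ne
      exact ⟨z, hz, fun h1 h2 => absurd ⟨h1, h2⟩ h⟩
  choose p h2 h3 using h1
  obtain ⟨j, h4, h5⟩ := hπ p h2
  refine ⟨j i, h4 i, ?_⟩
  rintro ⟨I, h6, h7⟩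
  obtain ⟨k, h8, h9⟩ := h5 ⟨I, h6⟩ _ (hq ⟨I, h6, h7⟩)
  rw [h7] at h9
  exact h9.mono (h3 ⟨⟨I, h6⟩, k⟩ h7 h8)

lemma finish {c : Cardinal.{u}} (hc : ℵ₀ ≤ c) {𝓘 : Set (Set P)} (h𝓘 : ∀ I ∈ 𝓘, Dir c I)
    {T : Type u} (hT : #T ≤ c) (A : T → Set (Set P)) (hA1 : ∀ t, A t ⊆ 𝓘)
    (hA2 : ∀ t, Good 𝓘 (A t)) (hA3 : ∀ I ∈ 𝓘, ∃ t, I ∈ A t) :
    ∃ F : T → Set P, (∀ t, IsLowerSet (F t) ∧ DirectedOn (· ≤ ·) (F t)) ∧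
      ∀ t, ∀ I ∈ A t, I ⊆ F t := by
  have h1 : ∀ t, ∃ t', ∀ q : A t → P, (∀ I, q I ∈ I.1) → ∃ J ∈ A t', ∀ I, Dn J (q I) := by
    intro t
    exact (Dir.pi (c := c) (fun I : A t => I.1) fun I => h𝓘 _ (hA1 t I.2)).one hT
      (fun t' q => ∃ J ∈ A t', ∀ I, Dn J (q I))
      (fun _ _ _ h ⟨J, k1, k2⟩ => ⟨J, k1, fun I => (k2 I).mono (h I)⟩) fun q hq => by
        obtain ⟨J, k1, k2⟩ := hA2 t q hq
        obtain ⟨t', k3⟩ := hA3 J k1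
        exact ⟨t', J, k3, k2⟩
  choose nx hnx using h1
  have h2 : ∀ t x y, (∃ I ∈ A t, Dn I x) → (∃ I ∈ A t, Dn I y) →
      ∃ J ∈ A (nx t), ∃ z ∈ J, x ≤ z ∧ y ≤ z := by
    rintro t x y ⟨I, k1, a, k2, k3⟩ ⟨I', m1, b, m2, m3⟩
    have h3 : ∀ Z : A t, ∃ z ∈ Z.1, (Z.1 = I → a ≤ z) ∧ (Z.1 = I' → b ≤ z) := by
      intro Z
      have h4 := h𝓘 _ (hA1 t Z.2)
      by_cases e1 : Z.1 = I <;> by_cases e2 : Z.1 = I'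
      · obtain ⟨z, h5, h6, h7⟩ := h4.pair hc (e1 ▸ k2) (e2 ▸ m2)
        exact ⟨z, h5, fun _ => h6, fun _ => h7⟩
      · exact ⟨a, e1 ▸ k2, fun _ => le_rfl, fun h => absurd h e2⟩
      · exact ⟨b, e2 ▸ m2, fun h => absurd h e1, fun _ => le_rfl⟩
      · obtain ⟨z, hz⟩ := h4.ne
        exact ⟨z, hz, fun h => absurd h e1, fun h => absurd h e2⟩
    choose q h4 h5 h6 using h3
    obtain ⟨J, h7, h8⟩ := hnx t q h4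
    obtain ⟨a', n1, n2⟩ := h8 ⟨I, k1⟩
    obtain ⟨b', n3, n4⟩ := h8 ⟨I', m1⟩
    obtain ⟨z, n5, n6, n7⟩ := (h𝓘 _ (hA1 _ h7)).pair hc n1 n3
    exact ⟨J, h7, z, n5, k3.trans ((h5 _ rfl).trans (n2.trans n6)),
      m3.trans ((h6 _ rfl).trans (n4.trans n7))⟩
  have h3 : ∀ t x n k, n ≤ k → (∃ I ∈ A (nx^[n] t), Dn I x) → ∃ I ∈ A (nx^[k] t), Dn I x := by
    intro t x n k hnk h
    induction k, hnk using Nat.le_induction with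
    | base => exact h
    | succ k _ ih =>
      obtain ⟨J, k1, z, k2, k3, -⟩ := h2 _ x x ih ih
      rw [Function.iterate_succ_apply']
      exact ⟨J, k1, z, k2, k3⟩
  refine ⟨fun t => {x | ∃ n, ∃ I ∈ A (nx^[n] t), Dn I x}, fun t => ⟨?_, ?_⟩,
    fun t I hI x hx => ⟨0, I, hI, x, hx, le_rfl⟩⟩
  · rintro x y hxy ⟨n, I, k1, k2⟩
    exact ⟨n, I, k1, k2.mono hxy⟩
  · rintro x ⟨n, hx⟩ y ⟨k, hy⟩
    obtain ⟨J, k1, z, k2, k3, k4⟩ := h2 _ x y (h3 t x n _ (le_max_left n k) hx)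
      (h3 t y k _ (le_max_right n k) hy)
    refine ⟨z, ⟨max n k + 1, J, ?_, z, k2, le_rfl⟩, k3, k4⟩
    rw [Function.iterate_succ_apply']
    exact k1

theorem main [WellFoundedLT ι] (H : Sg μ ι m)
    (hP : ∀ X : Set P, IsAntichain (· ≤ ·) X → #X < μ) :
    ∃ 𝓕 : Set (Set P), #𝓕 < μ ∧ (∀ F ∈ 𝓕, F.Nonempty ∧ IsLowerSet F ∧ DirectedOn (· ≤ ·) F) ∧
      ∀ p, ∃ F ∈ 𝓕, p ∈ F := by
  rcases isEmpty_or_nonempty P with hP0 | ⟨⟨p0⟩⟩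
  · exact ⟨∅, by simpa using aleph0_pos.trans H.inf, by simp, fun p => hP0.elim p⟩
  obtain ⟨l, hl1, hl2, hl3, hl4⟩ := claimA H hP
  unfold Big at hl4
  push Not at hl4
  obtain ⟨c, hc⟩ : ∃ c : Cardinal.{u}, c = 2 ^ l := ⟨_, rfl⟩
  have hlc : l ≤ c := hc ▸ (cantor l).le
  have hc1 : ℵ₀ ≤ c := hl1.trans hlc
  have hc2 : c < μ := hc ▸ H.sl l hl3
  have hc3 : c ^ l = c := by rw [hc, ← power_mul, mul_eq_self hl1]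
  obtain ⟨L, h1, h2, h3, h4⟩ := cover (univ : Set P) hc1
  obtain ⟨𝓘, h𝓘⟩ : ∃ 𝓘 : Set (Set P), ∀ I, I ∈ 𝓘 ↔ ∃ ξ, I ∈ L (max (m ξ) ℵ₀) :=
    ⟨{I | ∃ ξ, I ∈ L (max (m ξ) ℵ₀)}, fun _ => Iff.rfl⟩
  have h5 : ∀ X : Set P, IsAntichain (· ≤ ·) X → L (max #X ℵ₀) ⊆ 𝓘 := by
    intro X hX I hI
    obtain ⟨ξ, k⟩ := H.cof _ (hP X hX)
    exact (h𝓘 I).mpr ⟨ξ, h1 (max_le_max_right _ k) hI⟩
  have h6 : ∀ p, ∃ I ∈ 𝓘, Dn I p := by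
    intro p
    obtain ⟨X, -, k2, k3 | ⟨I, k3, k4⟩⟩ := h4 {p} (subset_univ _) (Dir.single p)
    · obtain ⟨x, k4, k5⟩ := k3.1 p rfl
      exact ⟨{x}, h5 X k2 (k3.2 x k4), x, rfl, k5⟩
    · exact ⟨I, h5 X k2 k3, k4 p rfl⟩
  have h7 : ∀ C : Set P, Dir c C → ∃ I ∈ 𝓘, ∀ a ∈ C, Dn I a := by
    intro C hC
    obtain ⟨X, -, k2, ⟨k3, -⟩ | ⟨I, k3, k4⟩⟩ := h4 C (subset_univ _) hC
    swap
    · exact ⟨I, h5 X k2 k3, k4⟩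
    obtain ⟨D, k4, k5⟩ := hl4 X (hP X k2)
    have k6 := k5 {x | x ∈ X ∧ ¬ Dn D x} (fun _ h => h.1) (k2.subset fun _ h => h.1)
      fun _ h => h.2
    obtain ⟨d, hd⟩ := hC.one (J := (D ∪ {x | x ∈ X ∧ ¬ Dn D x} : Set P))
      ((mk_union_le _ _).trans ((add_le_of_le hl1 k4 k6).trans hlc)) (fun d a => a ≤ d.1)
      (fun _ _ _ h h' => h.trans h') fun a ha => by
        obtain ⟨x, m1, m2⟩ := k3 a ha
        by_cases m3 : Dn D x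
        · obtain ⟨d, m4, m5⟩ := m3
          exact ⟨⟨d, Or.inl m4⟩, m2.trans m5⟩
        · exact ⟨⟨x, Or.inr ⟨m1, m3⟩⟩, m2⟩
    obtain ⟨I, m1, m2⟩ := h6 d.1
    exact ⟨I, m1, fun a ha => m2.mono (hd a ha)⟩
  have h8 : ∀ S : Set P, #S < μ → ∃ 𝓙 ⊆ 𝓘, #𝓙 ≤ c ∧ ∀ s ∈ S, ∃ J ∈ 𝓙, Dn J s := by
    intro S hS
    obtain ⟨D, k4, k5⟩ := hl4 S hS
    obtain ⟨L', m1, m2, m3, m4⟩ := cover1 {x | x ∈ S ∧ ¬ Dn D x} hc1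
    choose f f1 f2 using h6
    choose g g1 g2 using fun C : L' l => h7 C.1 (m3 l C.1 C.2).2
    refine ⟨f '' D ∪ range g, ?_, (mk_union_le _ _).trans (add_le_of_le hc1
      (mk_image_le.trans (k4.trans hlc)) (mk_range_le.trans ((m2 l hl1).trans hc3.le))), ?_⟩
    · rintro _ (⟨d, -, rfl⟩ | ⟨C, rfl⟩)
      · exact f1 d
      · exact g1 C
    · intro s hs
      by_cases m5 : Dn D s
      · obtain ⟨d, m6, m7⟩ := m5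
        exact ⟨f d, Or.inl (mem_image_of_mem f m6), (f2 d).mono m7⟩
      · obtain ⟨X, n1, n2, C, n3, a, n4, n5⟩ := m4 s ⟨hs, m5⟩
        have n6 : C ∈ L' l := m1 (max_le (k5 X (fun x hx => (n1 hx).1) n2
          fun x hx => (n1 hx).2) hl1) n3
        exact ⟨g ⟨C, n6⟩, Or.inr (mem_range_self _), (g2 ⟨C, n6⟩ a n4).mono n5⟩
  have h9 : ∀ I ∈ 𝓘, Dir c I := fun I hI => by
    obtain ⟨ξ, k⟩ := (h𝓘 I).mp hI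
    exact (h3 _ I k).2
  have h10 : ∀ ξ, #(L (max (m ξ) ℵ₀)) < μ := fun ξ =>
    (h2 _ (le_max_right _ _)).trans_lt (H.pow hc2 (max_lt (H.lt ξ) H.inf))
  have h11 : ∀ ξ (I : Set P), ∃ K : Set (Set P), I ∈ 𝓘 → #K < μ ∧
      (∀ k ∈ K, k ⊆ I ∧ Dir (max (c ^ #(L (max (m ξ) ℵ₀))) ℵ₀) k) ∧ ∀ x ∈ I, ∃ k ∈ K, Dn k x := by
    intro ξ I
    by_cases h : I ∈ 𝓘
    · obtain ⟨K, hK⟩ := split H hP (hl2.trans hlc) (le_max_right _ _)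
        (max_lt (H.pow hc2 (h10 ξ)) H.inf) (h9 I h)
      exact ⟨K, fun _ => hK⟩
    · exact ⟨∅, fun h' => absurd h' h⟩
  choose K hK using h11
  have h12 : 𝓘.Nonempty := by
    obtain ⟨I, k, -⟩ := h6 p0
    exact ⟨I, k⟩
  have h13 : ∀ ξ η, {I | I ∈ L (max (m ξ) ℵ₀) ∧ #(K ξ I) ≤ m η} ⊆ 𝓘 :=
    fun ξ η I hI => (h𝓘 I).mpr ⟨ξ, hI.1⟩
  choose π hπ using fun ξ η => part H (W := {I | I ∈ L (max (m ξ) ℵ₀) ∧ #(K ξ I) ≤ m η}) h12 h8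
    ((mk_le_mk_of_subset fun _ h => h.1).trans_lt (h10 ξ)) (fun I hI => h9 I (h13 ξ η hI))
    ((power_le_power_left (aleph0_pos.trans_le hc1).ne'
      (mk_le_mk_of_subset fun _ h => h.1)).trans (le_max_left _ ℵ₀)) (H.lt η) (K ξ)
    (fun I hI => hI.2) (fun I hI k hk => ((hK ξ I (h13 ξ η hI)).2.1 k hk).2)
    fun I hI => (hK ξ I (h13 ξ η hI)).2.2
  have hT : #(ι × ι × c.out) ≤ c := by
    simp only [mk_prod, lift_id, mk_out]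
    exact mul_le_of_le hc1 (hl2.trans hlc) (mul_le_of_le hc1 (hl2.trans hlc) le_rfl)
  have h14 : ∀ I ∈ 𝓘, ∃ t : ι × ι × c.out, I ∈ {I | ∃ h : I ∈
      {I | I ∈ L (max (m t.1) ℵ₀) ∧ #(K t.1 I) ≤ m t.2.1}, π t.1 t.2.1 ⟨I, h⟩ = t.2.2} := by
    intro I hI
    obtain ⟨ξ, k1⟩ := (h𝓘 I).mp hI
    obtain ⟨η, k2⟩ := H.cof _ (hK ξ I hI).1
    exact ⟨(ξ, η, π ξ η ⟨I, k1, k2⟩), ⟨k1, k2⟩, rfl⟩
  obtain ⟨F, hF1, hF2⟩ := finish hc1 h9 hT _ (fun t I hI => h13 _ _ hI.1)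
    (fun t => hπ t.1 t.2.1 t.2.2) h14
  refine ⟨{G | G ∈ range F ∧ G.Nonempty}, (mk_le_mk_of_subset fun _ h => h.1).trans_lt
    (mk_range_le.trans_lt (hT.trans_lt hc2)), ?_, fun p => ?_⟩
  · rintro _ ⟨⟨t, rfl⟩, k⟩
    exact ⟨k, hF1 t⟩
  · obtain ⟨I, k1, a, k2, k3⟩ := h6 p
    obtain ⟨t, k4⟩ := h14 I k1
    have k5 : p ∈ F t := (hF1 t).1 k3 (hF2 t I k4 k2)
    exact ⟨F t, ⟨mem_range_self t, p, k5⟩, k5⟩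

lemma exists_sg (h1 : μ.IsSingular) (h2 : ∀ c < μ, 2 ^ c < μ) :
    ∃ m : μ.ord.cof.ord.ToType → Cardinal.{u}, Sg μ _ m := by
  obtain ⟨ι, f, hf, hι⟩ := Ordinal.exists_lsub_cof μ.ord
  obtain ⟨e⟩ : Nonempty (μ.ord.cof.ord.ToType ≃ ι) := Cardinal.eq.mp (by rw [mk_ord_toType, hι])
  refine ⟨fun ξ => (f (e ξ)).card, h1.aleph0_le.lt_of_ne ?_, h2, ?_, fun ξ => ?_, fun ξ => ?_,
    fun c hc => ?_⟩
  · rintro rfl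
    exact not_isSingular_aleph0 h1
  · rw [mk_ord_toType]; exact h1.cof_ord_lt
  · exact mk_Iio_toType_ord_lt ξ
  · exact lt_ord.mp ((Ordinal.lt_lsub f (e ξ)).trans_eq hf)
  · rw [← ord_lt_ord, ← hf, Ordinal.lt_lsub_iff] at hc
    obtain ⟨i, hi⟩ := hc
    exact ⟨e.symm i, by simpa using ord_le.mp hi⟩

theorem final (h1 : μ.IsSingular) (h2 : ∀ c < μ, 2 ^ c < μ)
    (hP : ∀ X : Set P, IsAntichain (· ≤ ·) X → #X ≠ μ) :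
    ∃ 𝓕 : Set (Set P), #𝓕 < μ ∧ (∀ F ∈ 𝓕, F.Nonempty ∧ IsLowerSet F ∧ DirectedOn (· ≤ ·) F) ∧
      ∀ p, ∃ F ∈ 𝓕, p ∈ F := by
  obtain ⟨m, H⟩ := exists_sg h1 h2
  refine main H fun X hX => ?_
  by_contra h
  obtain ⟨Y, h3, h4⟩ := le_mk_iff_exists_subset.mp (not_lt.mp h)
  exact hP Y (hX.subset h3) h4

end Pool.Agent.H.MP_cfac02_lc
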